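import Pool.Agent.H74.ST.Ball

set_option autoImplicit false
open Metric

/-!
# The Steklov spectrum and boundary singularities: all pairs among sign-change quotients of balls

`OrbifoldBall n` (from the library module `BoundarySingUndetected`) is the flat orbifold
`closedBall 0 R / Γ`, where `Γ` is a finite group of isometries of Euclidean `n`-space which fix the
origin; `IsSingular`, `Isospectral` (same Steklov spectrum with multiplicities) are defined there.
From `Pool.Agent.H74.ST.Ball`:

* `SignChanges O`: every element of `O.Γ` changes the signs of some of the coordinates;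
* `EqualSigns O i j`: `O.Γ` consists of all the sign changes which have equal signs at the
  coordinates `i` and `j` (a group of order `2 ^ (n - 1)`);
* `BoundarySingular O`: the orbifold `O` has a singular point on its boundary.
-/

namespace Pool.Agent.Results.MP_81485b_gt.SignQuotients

open Pool.Agent.Results.MP_81485b_gt.BoundarySingUndetected
open Pool.Agent.H74.ST
open Pool.Agent.W545.Orb (signIso signIso_apply signGroup S1 signIso_mem)

variable {n : ℕ}

theorem equalSigns_signOrb (i j : Fin n) {R : ℝ} (hR : 0 < R) :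
    EqualSigns (signOrb (S1 i j) R hR) i j := by
  intro γ
  constructor
  · rintro ⟨L, ⟨ε, hε, h⟩, rfl⟩
    exact ⟨ε, hε, fun x k => h x k⟩
  · rintro ⟨ε, hε, h⟩
    exact ⟨signIso ε, signIso_mem (show ε ∈ S1 i j from hε), perm_eq h⟩

theorem perm_inj {ε δ : Fin n → ℤˣ} (h : (signIso ε).toEquiv = (signIso δ).toEquiv) : ε = δ := by
  funext k
  have h1 := congrArg (fun e : Equiv.Perm (E n) => e (EuclideanSpace.single k 1) k) h
  have h2 : signIso ε (EuclideanSpace.single k 1) k =
    signIso δ (EuclideanSpace.single k 1) k := h1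
  rw [signIso_apply, signIso_apply] at h2
  simp at h2
  exact Units.ext h2

/-- The isotropy group of a boundary point on the `i`-th axis. -/
theorem card_isotropy {O : OrbifoldBall n} {i j : Fin n} (hij : i ≠ j) (h : EqualSigns O i j) :
    Nat.card {γ : Equiv.Perm (E n) //
      γ ∈ O.Γ ∧ γ (EuclideanSpace.single i O.R) = EuclideanSpace.single i O.R} = 2 ^ (n - 2) := by
  classical
  let ex : ({k : Fin n // k ≠ i ∧ k ≠ j} → ℤˣ) → Fin n → ℤˣ :=
    fun δ k => if h : k ≠ i ∧ k ≠ j then δ ⟨k, h⟩ else 1
  have exi : ∀ δ, ex δ i = 1 := fun δ => by simp [ex]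
  have exj : ∀ δ, ex δ j = 1 := fun δ => by simp [ex]
  let f : ({k : Fin n // k ≠ i ∧ k ≠ j} → ℤˣ) → {γ : Equiv.Perm (E n) //
      γ ∈ O.Γ ∧ γ (EuclideanSpace.single i O.R) = EuclideanSpace.single i O.R} :=
    fun δ => ⟨(signIso (ex δ)).toEquiv, (h _).2 ⟨ex δ, by rw [exi, exj], signIso_apply _⟩, by
      ext k
      show signIso (ex δ) (EuclideanSpace.single i O.R) k = _
      rw [signIso_apply]
      by_cases hk : k = i
      · subst hk; rw [exi]; simp
      · simp [hk]⟩
  have hf : Function.Bijective f := by
    constructor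
    · intro δ δ' hd
      have h1 := perm_inj (congrArg Subtype.val hd)
      funext k
      have h2 := congrFun h1 k.1
      simpa [ex, k.2.1, k.2.2] using h2
    · rintro ⟨γ, hγ, hfix⟩
      obtain ⟨ε, hε, h1⟩ := (h γ).1 hγ
      have hi : ε i = 1 := by
        have h2 := h1 (EuclideanSpace.single i O.R) i
        rw [hfix] at h2
        rcases Int.units_eq_one_or (ε i) with h3 | h3
        · exact h3
        · rw [h3] at h2
          simp at h2
          have := O.pos
          linarith
      refine ⟨fun k => ε k.1, Subtype.ext ?_⟩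
      show (signIso (ex fun k => ε k.1)).toEquiv = γ
      have h4 : (ex fun k => ε k.1) = ε := by
        funext k
        by_cases hk : k ≠ i ∧ k ≠ j
        · simp [ex, hk.1, hk.2]
        · have h5 : k = i ∨ k = j := by tauto
          rcases h5 with h5 | h5
          · rw [h5, hi]; simp [ex]
          · rw [h5, ← hε, hi]; simp [ex]
      rw [h4]
      exact perm_eq h1
  rw [← Nat.card_congr (Equiv.ofBijective f hf), Nat.card_eq_fintype_card, Fintype.card_fun,
    Fintype.card_units_int, Fintype.card_subtype]
  congr 1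
  have h6 : (Finset.univ.filter fun k : Fin n => k ≠ i ∧ k ≠ j) = Finset.univ \ {i, j} := by
    ext k; simp
  rw [h6, Finset.card_sdiff_of_subset (Finset.subset_univ _), Finset.card_pair hij,
    Finset.card_univ, Fintype.card_fin]

/-- **1.** Let `O`, `O'` be quotients of closed balls of `ℝⁿ`, of any radii and in any dimension
`n`, by groups of coordinate sign changes, such that `O` has a singular point on its boundary and `O'` has
none. Then `O` and `O'` are Steklov isospectral if and only if `n ≥ 3`, `O'` is the smooth ball of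
some radius `R` and `O` is the quotient of the ball of radius `2 R` by the group of all sign changes
with equal signs at two coordinates `i ≠ j`.

**2.** Such pairs exist: for every `n ≥ 3` and every `R > 0` the smooth ball of radius `R` is
Steklov isospectral to an orbifold ball with singular points on its boundary, one of which has an
isotropy group of order `2 ^ (n - 2)`. -/
theorem result :
    (∀ (n : ℕ) (O O' : OrbifoldBall n), SignChanges O → SignChanges O' →
      BoundarySingular O → ¬ BoundarySingular O' →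
      (Isospectral O O' ↔ (3 ≤ n ∧ O'.Γ = ⊥ ∧ O.R = 2 * O'.R ∧
        ∃ i j : Fin n, i ≠ j ∧ EqualSigns O i j))) ∧
    (∀ (n : ℕ) (R : ℝ), 3 ≤ n → 0 < R → ∃ O O' : OrbifoldBall n,
      O'.R = R ∧ O'.Γ = ⊥ ∧ O.R = 2 * R ∧ (∃ i j : Fin n, i ≠ j ∧ EqualSigns O i j) ∧
      BoundarySingular O ∧
      (∃ x ∈ sphere (0 : E n) O.R,
        Nat.card {γ : Equiv.Perm (E n) // γ ∈ O.Γ ∧ γ x = x} = 2 ^ (n - 2)) ∧
      Isospectral O O') := by
  refine ⟨fun n O O' hO hO' hs hs' => iso_iff hO hO' hs hs', ?_⟩
  intro n R hn hR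
  let i : Fin n := ⟨0, by omega⟩
  let j : Fin n := ⟨1, by omega⟩
  let ℓ : Fin n := ⟨2, by omega⟩
  have hij : i ≠ j := by simp [i, j]
  have hiℓ : i ≠ ℓ := by simp [i, ℓ]
  have hjℓ : j ≠ ℓ := by simp [j, ℓ]
  let O : OrbifoldBall n := signOrb (S1 i j) (2 * R) (by linarith)
  let O' : OrbifoldBall n := signOrb ⊥ R hR
  have hE : EqualSigns O i j := equalSigns_signOrb i j _
  have hΓ : O'.Γ = ⊥ := by
    rw [eq_bot_iff]
    rintro γ ⟨L, hL, rfl⟩
    rw [SetLike.mem_coe, Pool.Agent.W545.Orb.signGroup_bot, Subgroup.mem_bot] at hL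
    subst hL
    rfl
  have hO : SignChanges O := signChanges_of_equalSigns hE
  have hO' : SignChanges O' := by
    intro γ hγ
    rw [hΓ, Subgroup.mem_bot] at hγ
    subst hγ
    exact ⟨1, fun x i => by simp⟩
  have hs : BoundarySingular O := by
    rw [boundarySingular_iff hO, sgn_of_equalSigns hE]
    intro hno
    have h1 : (fun k : Fin n => if k = ℓ then (-1 : ℤˣ) else 1) ∈ S1 i j := by
      show (if i = ℓ then (-1 : ℤˣ) else 1) = if j = ℓ then -1 else 1
      rw [if_neg hiℓ, if_neg hjℓ]
    refine hno _ h1 ?_ i ?_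
    · intro h2
      have h3 := congrFun h2 ℓ
      simp at h3
    · show (if i = ℓ then (-1 : ℤˣ) else 1) = 1
      rw [if_neg hiℓ]
  have hs' : ¬ BoundarySingular O' := by
    rintro ⟨x, -, γ, hγ, hne, -⟩
    rw [hΓ, Subgroup.mem_bot] at hγ
    exact hne hγ
  refine ⟨O, O', rfl, hΓ, rfl, ⟨i, j, hij, hE⟩, hs, ⟨EuclideanSpace.single i O.R, ?_, ?_⟩, ?_⟩
  · rw [mem_sphere_zero_iff_norm]
    simp [abs_of_pos O.pos]
  · exact card_isotropy hij hE
  · exact (iso_iff hO hO' hs hs').2 ⟨hn, hΓ, rfl, i, j, hij, hE⟩

end Pool.Agent.Results.MP_81485b_gt.SignQuotients
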